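import Pool.Agent.H780.R2.Fin
import Pool.Agent.H780.RG.Whole
import Pool.Agent.Results.MP_aeade1_gt.NearVolume

/-!
# The rigidity theorem for convex regions in all dimensions at least two
-/

set_option autoImplicit false

open MeasureTheory Metric Set InnerProductGeometry

namespace Pool.Agent.H780.RL

open Pool.Agent.H241R3.FV Pool.Agent.N526.CP Pool.Agent.N979.CP Pool.Agent.H780.NV
open Pool.Agent.Results.MP_aeade1_gt.RoundRegions (Adm setVol)
open Pool.Agent.Results.MP_aeade1_gt.NearVolume (Dominates)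

/-- The admissible sines of the radius. -/
def AdmR (d : ℕ) (s : ℝ) : Prop := (d = 1 ∧ s ≤ 947 / 1000) ∨ (2 ≤ d ∧ Adm d s)

theorem AdmR.adm {d : ℕ} {s : ℝ} (h : AdmR d s) : 1 ≤ d ∧ Adm d s := by
  rcases h with ⟨rfl, h⟩ | ⟨h1, h2⟩
  · exact ⟨le_rfl, Or.inl ⟨rfl, h⟩⟩
  · exact ⟨by omega, h2⟩

/-- the case of equality in the pointwise inequality, all dimensions -/
theorem cb_all {d : ℕ} {s : ℝ} (h0 : 0 < s) (hs : AdmR d s) : R2.CB d s := by
  have hG : Good2 d s := Fin.good2_all hs.adm.1 h0 hs.adm.2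
  rcases hs with ⟨rfl, h⟩ | ⟨h1, h2⟩
  · exact R2.Fin.cb_two h0 h
  · intro X hX α hα G hGp hb heq hne
    exact RG.Fin.combe d h1 s hG X hX α hα G hGp hb heq hne

/-- the inequality and the case of equality -/
theorem rigid_all {d : ℕ} {s : ℝ} (h0 : 0 < s) (hs : AdmR d s)
    {M : Type} [MetricSpace M] [ProperSpace M] {bd : Sph (d + 1) → M} {N : Set M}
    (S : NFill (d + 1) M bd N) {F : E (d + 1) → E (d + 1)} {r : Sph (d + 1) → ℝ}
    (hF : Dominates bd s F r) (hinj : InjOn F (closedBall 0 1))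
    (hint : F '' ball 0 1 = interior (F '' closedBall 0 1))
    (hconv : Convex ℝ (RG.gn '' (F '' closedBall 0 1)))
    (hor : ∀ᵐ y ∂(volume.restrict (ball (0 : E (d + 1)) 1)), 0 ≤ (fderiv ℝ F y).det)
    (hN : near bd r ⊆ N) :
    ENNReal.ofReal (setVol (F '' ball 0 1)) ≤ S.part (near bd r) ∧
    (RG.Geod M → S.part (near bd r) = ENNReal.ofReal (setVol (F '' ball 0 1)) →
      ∃ Φ : E (d + 1) → M,
        (∀ y ∈ F '' closedBall 0 1, ∀ z ∈ F '' closedBall 0 1, dist (Φ y) (Φ z) = hdist y z) ∧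
        (∀ x : Sph (d + 1), Φ (F x) = bd x) ∧
        near bd r ⊆ Φ '' (F '' closedBall 0 1) ∧
        Φ '' (F '' closedBall 0 1 \ {0}) ⊆ near bd r ∧
        (N = univ → Φ '' (F '' closedBall 0 1) = univ)) := by
  obtain ⟨hd, hs'⟩ := hs.adm
  have hG : Good2 d s := Fin.good2_all hd h0 hs'
  refine ⟨((Results.MP_aeade1_gt.NearVolume.result d hd s h0 hs' M bd N S).1 F r hF hN).2
    (hinj.mono ball_subset_closedBall) hor, fun hM hV => ?_⟩
  obtain ⟨⟨L, hL⟩, hr, hbd, hrad, B, hB⟩ := hF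
  have hreg : H780.RG.CReg F := ⟨hL.continuousOn, fun y hy => (hr y hy).trans_lt hG.2.1, hinj,
    hint, hconv⟩
  have hb : ∀ x, bd x ∈ near bd r := fun x => ⟨x, by rw [dist_self]; exact (hrad x).1⟩
  obtain ⟨S', hS'⟩ := exists_restr S (N := near bd r) isOpen_near hN hb
  rw [← hS'] at hV
  obtain ⟨Φ, h1, h2, h3, h4⟩ := H780.R2.Fin.rigid hd (cb_all h0 hs) hG hM S' hB F
    L hL hr hbd (fun x => (hrad x).2) hreg hor hV.le
  refine ⟨Φ, h1, h2, h3, h4, fun hu => ?_⟩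
  subst hu
  exact H780.RG.Whole.whole (by omega) hM S hb hreg h1 h3 h4

end Pool.Agent.H780.RL
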