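import Pool.Agent.H780.RO.Stm

/-!
# Project RL (helper780): no shortcuts between boundary points of a convex region which is contained in
a convex region of the open hemisphere
-/

set_option autoImplicit false

open MeasureTheory Metric Set Filter Topology InnerProductGeometry

namespace Pool.Agent.H780.RL

open Pool.Agent.H241R3.FV Pool.Agent.N526.CP Pool.Agent.H780.RG

/-- additivity of angles in a plane -/
theorem add_angle {N : ℕ} {x z : E N} (hx : x ≠ 0) (hz : z ≠ 0) {p q : ℝ} (hp : 0 ≤ p) (hq : 0 ≤ q)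
    (hpq : 0 < p + q) :
    angle x z = angle x (p • x + q • z) + angle (p • x + q • z) z := by
  rcases hp.eq_or_lt with h | hp0
  · have hq0 : 0 < q := by linarith
    rw [← h, zero_smul, zero_add, angle_smul_right_of_pos _ _ hq0, angle_smul_left_of_pos _ _ hq0,
      angle_self hz, add_zero]
  rcases hq.eq_or_lt with h | hq0
  · rw [← h, zero_smul, add_zero, angle_smul_right_of_pos _ _ hp0, angle_smul_left_of_pos _ _ hp0,
      angle_self hx, zero_add]
  · have h1 := angle_eq_angle_add_add_angle_add (p • x) (y := q • z) (smul_ne_zero hq0.ne' hz)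
    rw [angle_smul_left_of_pos _ _ hp0, angle_smul_right_of_pos _ _ hq0,
      angle_smul_left_of_pos _ _ hp0, angle_smul_left_of_pos _ _ hq0] at h1
    rw [h1, angle_comm z]

/-- the point where the great circle leaves the region -/
theorem leave {N : ℕ} {C : Set (E N)} {m : E N} (hC : IsClosed C)
    (hm : ∀ z ∈ C, z ≠ 0 → 0 < inner ℝ z m) {a b : E N} (ha : ‖a‖ = 1) (hb : ‖b‖ = 1) (hab : a ≠ b)
    (haC : a ∈ C) (hbC : b ∈ C) :
    ∃ P Q : ℝ, 0 ≤ P ∧ 0 < Q ∧ Q • a - P • b ∈ C ∧ Q • a - P • b ∉ interior C ∧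
      Q • a - P • b ≠ 0 := by
  have hb0 : b ≠ 0 := by
    rintro rfl
    rw [norm_zero] at hb
    exact zero_ne_one hb
  obtain ⟨g, hg⟩ : ∃ g : ℝ → E N, g = fun τ => (1 - τ) • a - τ • b := ⟨_, rfl⟩
  have hgc : Continuous g := by
    rw [hg]
    fun_prop
  have hcomp : IsCompact (Icc (0 : ℝ) 1 ∩ g ⁻¹' C) :=
    isCompact_Icc.inter_right (hC.preimage hgc)
  have hne : (Icc (0 : ℝ) 1 ∩ g ⁻¹' C).Nonempty := by
    refine ⟨0, ⟨le_rfl, zero_le_one⟩, ?_⟩
    show g 0 ∈ C
    rw [hg]
    simpa using haC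
  obtain ⟨τ, ⟨⟨hτ0, hτ1⟩, hτC⟩, hmax⟩ := hcomp.exists_isGreatest hne
  have hτC' : g τ ∈ C := hτC
  have hlt : τ < 1 := by
    refine lt_of_le_of_ne hτ1 ?_
    rintro rfl
    have h1 : -b ∈ C := by
      have : g 1 = -b := by rw [hg]; simp
      rwa [this] at hτC'
    have h2 := hm _ h1 (neg_ne_zero.2 hb0)
    have h3 := hm _ hbC hb0
    rw [inner_neg_left] at h2
    linarith
  have hgτ : (1 - τ) • a - τ • b = g τ := by rw [hg]
  refine ⟨τ, 1 - τ, hτ0, by linarith, by rw [hgτ]; exact hτC', ?_, ?_⟩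
  · rw [hgτ]
    intro hint
    have h1 : ∀ᶠ t in 𝓝 τ, g t ∈ C := by
      filter_upwards [(hgc.tendsto τ).eventually (isOpen_interior.mem_nhds hint)] with t ht
      exact interior_subset ht
    have h2 : ∀ᶠ t in 𝓝[>] τ, g t ∈ C ∧ t < 1 ∧ τ < t := by
      filter_upwards [nhdsWithin_le_nhds h1, nhdsWithin_le_nhds (eventually_lt_nhds hlt),
        self_mem_nhdsWithin] with t h3 h4 h5
      exact ⟨h3, h4, h5⟩
    obtain ⟨t, ht1, ht2, ht3⟩ := h2.exists
    have h3 := hmax ⟨⟨hτ0.trans ht3.le, ht2.le⟩, ht1⟩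
    exact absurd h3 (not_le.2 ht3)
  · intro h0
    rw [sub_eq_zero] at h0
    have h1 : 1 - τ = τ := by
      have h := congrArg norm h0
      rwa [norm_smul, norm_smul, ha, hb, mul_one, mul_one, Real.norm_of_nonneg (by linarith),
        Real.norm_of_nonneg hτ0] at h
    rw [h1] at h0
    have hτ : τ ≠ 0 := by
      intro h
      rw [h] at h1
      norm_num at h1
    exact hab (smul_right_injective _ hτ h0)

end Pool.Agent.H780.RL
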