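import Pool.Agent.H780.RL.Arc
import Pool.Agent.H780.RO.CONE

/-!
# Project RL: the distances of the boundary points
-/

set_option autoImplicit false

open MeasureTheory Metric Set Filter Topology InnerProductGeometry

namespace Pool.Agent.H780.RL

open Pool.Agent.H241R3.FV Pool.Agent.N526.CP Pool.Agent.H780.RG Pool.Agent.H780.RO

/-- the segment from the boundary of the large region to `a` -/
theorem half {N : ℕ} {M : Type} [MetricSpace M] {ι : E N → M} {c a b : E N} {I C : Set (E N)}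
    (hCs : ∀ z ∈ C, ∀ t : ℝ, 0 ≤ t → t • z ∈ C)
    (ha : ‖a‖ = 1) (haC : a ∈ C) (hac : 0 < inner ℝ a c)
    (hI : ∀ z ∈ I, 0 < inner ℝ z c)
    (hIa : ∀ z ∈ I, ∀ s t : ℝ, 0 < s → 0 ≤ t → s • z + t • a ∈ I)
    (hIb : ∀ z ∈ I, ∀ s t : ℝ, 0 < s → 0 ≤ t → s • z + t • b ∈ I)
    (haI : a ∉ I) {P Q : ℝ} (hP : 0 ≤ P) {v : E N} (hv : v = Q • a - P • b)
    (hv0 : v ≠ 0) (hvC : v ∈ C)
    (H : ∀ x y : E N, ‖x‖ = 1 → ‖y‖ = 1 → x ∈ C → y ∈ C →
      (∀ s t : ℝ, 0 ≤ s → 0 ≤ t → s • x + t • y ∉ I) → dist (ι x) (ι y) ≤ angle x y) :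
    dist (ι (‖v‖⁻¹ • v)) (ι a) ≤ angle v a := by
  have hn : 0 < ‖v‖ := norm_pos_iff.2 hv0
  have hw : 0 < ‖v‖⁻¹ := inv_pos.2 hn
  have hx1 : ‖(‖v‖⁻¹ • v)‖ = 1 := by
    rw [norm_smul, norm_inv, norm_norm, inv_mul_cancel₀ hn.ne']
  obtain ⟨w, hwv⟩ : ∃ w, w = ‖v‖ := ⟨_, rfl⟩
  rw [← hwv] at hn hw hx1 ⊢
  have h1 := H (w⁻¹ • v) a hx1 ha (hCs v hvC _ hw.le) haC ?_
  · rwa [angle_smul_left_of_pos _ _ hw] at h1
  · intro s t hs ht hz
    have h4 : s • (w⁻¹ • v) + t • a + (s * w⁻¹ * P) • b = (s * w⁻¹ * Q + t) • a := by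
      rw [hv]
      module
    have h5 := hIb _ hz 1 (s * w⁻¹ * P) one_pos (by positivity)
    rw [one_smul, h4] at h5
    obtain ⟨g, hg⟩ : ∃ g, g = s * w⁻¹ * Q + t := ⟨_, rfl⟩
    rw [← hg] at h5
    have h6 := hI _ h5
    rw [inner_smul_left] at h6
    have hg0 : 0 < g := by
      by_contra hneg
      have h7 : g * inner ℝ a c ≤ 0 := mul_nonpos_of_nonpos_of_nonneg (not_lt.1 hneg) hac.le
      simp only [conj_trivial] at h6
      linarith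
    have h7 := hIa _ h5 g⁻¹ 0 (inv_pos.2 hg0) le_rfl
    rw [smul_smul, inv_mul_cancel₀ hg0.ne', one_smul, zero_smul, add_zero] at h7
    exact haI h7

/-- a positive multiple of a point which is not interior -/
theorem smul_not_int {N : ℕ} {C : Set (E N)} (hCs : ∀ z ∈ C, ∀ t : ℝ, 0 ≤ t → t • z ∈ C) {v : E N}
    (hv : v ∉ interior C) {t : ℝ} (ht : 0 < t) : t • v ∉ interior C := by
  intro h
  apply hv
  rw [mem_interior] at h ⊢
  obtain ⟨U, hU, hUo, hUv⟩ := h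
  refine ⟨(fun z => t • z) ⁻¹' U, fun z hz => ?_, hUo.preimage (continuous_const_smul t), hUv⟩
  have h1 := hCs _ (hU hz) t⁻¹ (inv_pos.2 ht).le
  rwa [smul_smul, inv_mul_cancel₀ ht.ne', one_smul] at h1

/-- no shortcuts between `a` and `b` -/
theorem arc {N : ℕ} {M : Type} [MetricSpace M] {ι : E N → M} {m c a b : E N} {I C : Set (E N)}
    (hC : IsClosed C) (hCs : ∀ z ∈ C, ∀ t : ℝ, 0 ≤ t → t • z ∈ C)
    (hCm : ∀ z ∈ C, z ≠ 0 → 0 < inner ℝ z m)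
    (ha : ‖a‖ = 1) (hb : ‖b‖ = 1) (haC : a ∈ C) (hbC : b ∈ C) (hac : 0 < inner ℝ a c)
    (hbc : 0 < inner ℝ b c) (hI : ∀ z ∈ I, 0 < inner ℝ z c)
    (hIa : ∀ z ∈ I, ∀ s t : ℝ, 0 < s → 0 ≤ t → s • z + t • a ∈ I)
    (hIb : ∀ z ∈ I, ∀ s t : ℝ, 0 < s → 0 ≤ t → s • z + t • b ∈ I) (haI : a ∉ I) (hbI : b ∉ I)
    (H : ∀ x y : E N, ‖x‖ = 1 → ‖y‖ = 1 → x ∈ C → y ∈ C →
      (∀ s t : ℝ, 0 ≤ s → 0 ≤ t → s • x + t • y ∉ I) → dist (ι x) (ι y) ≤ angle x y)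
    (Hno : ∀ x y : E N, ‖x‖ = 1 → ‖y‖ = 1 → x ∈ C → y ∈ C → x ∉ interior C → y ∉ interior C →
      angle x y ≤ dist (ι x) (ι y)) :
    angle a b ≤ dist (ι a) (ι b) := by
  have ha0 : a ≠ 0 := by
    rintro rfl
    rw [norm_zero] at ha
    exact zero_ne_one ha
  have hb0 : b ≠ 0 := by
    rintro rfl
    rw [norm_zero] at hb
    exact zero_ne_one hb
  by_cases hab : a = b
  · rw [hab, angle_self hb0]
    exact dist_nonneg
  obtain ⟨P, Q, hP, hQ, k1, k2, k3⟩ := leave hC hCm ha hb hab haC hbC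
  obtain ⟨P', Q', hP', hQ', k1', k2', k3'⟩ := leave hC hCm hb ha (Ne.symm hab) hbC haC
  obtain ⟨x, hx⟩ : ∃ x, x = Q • a - P • b := ⟨_, rfl⟩
  obtain ⟨y, hy⟩ : ∃ y, y = Q' • b - P' • a := ⟨_, rfl⟩
  rw [← hx] at k1 k2 k3
  rw [← hy] at k1' k2' k3'
  have h1 := half hCs ha haC hac hI hIa hIb haI hP hx k3 k1 H
  have h2 := half hCs hb hbC hbc hI hIb hIa hbI hP' hy k3' k1' H
  have hxn : 0 < ‖x‖⁻¹ := inv_pos.2 (norm_pos_iff.2 k3)
  have hyn : 0 < ‖y‖⁻¹ := inv_pos.2 (norm_pos_iff.2 k3')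
  have h3 := Hno (‖x‖⁻¹ • x) (‖y‖⁻¹ • y)
    (by rw [norm_smul, norm_inv, norm_norm, inv_mul_cancel₀ (norm_ne_zero_iff.2 k3)])
    (by rw [norm_smul, norm_inv, norm_norm, inv_mul_cancel₀ (norm_ne_zero_iff.2 k3')])
    (hCs _ k1 _ hxn.le) (hCs _ k1' _ hyn.le) (smul_not_int hCs k2 hxn) (smul_not_int hCs k2' hyn)
  rw [angle_smul_left_of_pos _ _ hxn, angle_smul_right_of_pos _ _ hyn] at h3
  -- the angles
  have e1 : angle x b = angle x a + angle a b := by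
    have e : (Q⁻¹ : ℝ) • x + (Q⁻¹ * P) • b = a := by
      rw [hx, smul_sub, smul_smul, smul_smul, inv_mul_cancel₀ hQ.ne', one_smul, sub_add_cancel]
    have h := add_angle k3 hb0 (inv_pos.2 hQ).le (by positivity : 0 ≤ Q⁻¹ * P) (by positivity)
    rwa [e] at h
  have e2 : angle x y = angle x b + angle b y := by
    have e : (Q⁻¹ * P') • x + (1 : ℝ) • y = (Q' - Q⁻¹ * P' * P) • b := by
      have e' : (Q⁻¹ * P') • x = P' • a - (Q⁻¹ * P' * P) • b := by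
        rw [hx, smul_sub, smul_smul, smul_smul]
        congr 2
        field_simp
      rw [e', hy, one_smul, sub_smul]
      abel
    have hcoef : 0 < Q' - Q⁻¹ * P' * P := by
      have i1 := hCm _ k1 k3
      have i2 := hCm _ k1' k3'
      have i3 := hCm _ hbC hb0
      have i4 : 0 < inner ℝ ((Q' - Q⁻¹ * P' * P) • b) m := by
        rw [← e, inner_add_left, real_inner_smul_left, real_inner_smul_left, one_mul]
        have : 0 ≤ Q⁻¹ * P' * inner ℝ x m := by positivity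
        linarith
      rw [real_inner_smul_left] at i4
      exact (pos_iff_pos_of_mul_pos i4).2 i3
    have h := add_angle k3 k3' (by positivity : 0 ≤ Q⁻¹ * P') zero_le_one (by positivity)
    rw [e, angle_smul_right_of_pos _ _ hcoef, angle_smul_left_of_pos _ _ hcoef] at h
    exact h
  have h4 : dist (ι (‖x‖⁻¹ • x)) (ι (‖y‖⁻¹ • y)) ≤
      dist (ι (‖x‖⁻¹ • x)) (ι a) + dist (ι a) (ι b) + dist (ι b) (ι (‖y‖⁻¹ • y)) :=
    dist_triangle4 _ _ _ _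
  rw [dist_comm (ι b)] at h4
  rw [angle_comm b y] at e2
  linarith

/-- The distances in `K` of the boundary points are at least the distances in the sphere. -/
theorem dist_le {n : ℕ} {K M : Type} [MetricSpace K] [MetricSpace M]
    {bd : Sph n → K} {F : E n → E n} (hF : CReg F) {c m : E (n + 1)} {J : E n →ₗᵢ[ℝ] E (n + 1)}
    {C : Set (E (n + 1))} (hC : IsClosed C) (hCs : ∀ z ∈ C, ∀ t : ℝ, 0 ≤ t → t • z ∈ C)
    (hCm : ∀ z ∈ C, z ≠ 0 → 0 < inner ℝ z m)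
    {j : K → M} {ι : E (n + 1) → M} (hc : ‖c‖ = 1) (hJ : ∀ v, inner ℝ (J v) c = 0)
    (hsub : ∀ x : Sph n, lift c J (F x) ∈ C)
    (hj : ∀ x y, dist (j x) (j y) ≤ dist x y)
    (hι : ∀ x y : E (n + 1), ‖x‖ = 1 → ‖y‖ = 1 → x ∈ C → y ∈ C →
      (∀ s t : ℝ, 0 ≤ s → 0 ≤ t → s • x + t • y ∉ cone F c J) → dist (ι x) (ι y) ≤ angle x y)
    (hg : ∀ x : Sph n, ι (lift c J (F x)) = j (bd x))
    (hno : ∀ x y : E (n + 1), ‖x‖ = 1 → ‖y‖ = 1 → x ∈ C → y ∈ C → x ∉ interior C →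
      y ∉ interior C → angle x y ≤ dist (ι x) (ι y)) (x y : Sph n) :
    hdist (F x) (F y) ≤ dist (bd x) (bd y) := by
  obtain ⟨c1, c2, c3⟩ := CONE.main n c J hc hJ
  obtain ⟨k1, k2, k3⟩ := c3 F hF
  have hx1 : ∀ x : Sph n, ‖F x‖ < 1 := fun x => hF.lt x (sphere_subset_closedBall x.2)
  have hxD : ∀ x : Sph n, F x ∈ F '' closedBall 0 1 := fun x => ⟨x, sphere_subset_closedBall x.2, rfl⟩
  have h := arc (m := m) (c := c) (a := lift c J (F x)) (b := lift c J (F y)) (I := cone F c J) hC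
    hCs hCm (c1 _ (hx1 x)).1 (c1 _ (hx1 y)).1 (hsub x) (hsub y) (c1 _ (hx1 x)).2 (c1 _ (hx1 y)).2 k1
    (fun z hz s t hs ht => k2 z hz _ (hxD x) s t hs ht)
    (fun z hz s t hs ht => k2 z hz _ (hxD y) s t hs ht) (k3 x) (k3 y) hι hno
  rw [c2 _ _ (hx1 x) (hx1 y), hg, hg] at h
  exact h.trans (hj _ _)

end Pool.Agent.H780.RL
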